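import Pool.Agent.TH121.KT.WordDefs
import Pool.Agent.W517.K3.Defs

/-!
# Heights, slopes with bounded denominators, independent heights: definitions
-/

set_option autoImplicit false

open CategoryTheory AlgebraicGeometry NumberField Polynomial

universe u v

namespace Pool.Agent.D0H44.KH

open Pool.Agent.H914 Pool.Agent.H914.VarClass Pool.Agent.H914.VarClass.Obj
  Pool.Agent.H914.WeilCohomology Pool.Agent.H281R3.HT Pool.Agent.W534

/-- `X` (with Weil number `α`, up to `e`-th roots, over the field with `q = p ^ Φ.e X` elements) has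
height `h`: the `p`-adic absolute values of the conjugates of the `e`-th root of `α` which are larger
than one are equal to `q ^ (1 / h)`. So the slopes of the Frobenius endomorphism on the part of the
middle cohomology which is not spanned by classes of algebraic cycles are `dim X / 2 - 1 / h`,
`dim X / 2` and `dim X / 2 + 1 / h`. -/
def HasHeight {k : Type u} [Field k] {𝒱 : VarClass k} {ops : CycleOps 𝒱}
    {W : WeilCohomology.{u, v} ops} {p : ℕ} [Fact p.Prime] (Φ : FrobSystem W p) (X : 𝒱.Obj) (e : ℕ)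
    {E : Type} [Field E] (α : E) (h : ℕ) : Prop :=
  0 < h ∧ ∀ σ : E →+* PadicAlgCl p, 1 < ‖σ α‖ → ‖σ α‖ ^ h = (p : ℝ) ^ (Φ.e X * e)

/-- The slopes of `U` have denominators dividing `D`: the eigenvalues of the Frobenius endomorphism of
`U` (relative to the field with `q = p ^ Φ.e U` elements) on the cohomology are roots of a nonzero
rational polynomial, and the `p`-adic absolute value of each root of this polynomial is `q ^ (k / D)`
with an integer `k`. (For `D = 1` all slopes are integers; for example `U` may be ordinary.) -/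
def SlopeDenominators {k : Type u} [Field k] {𝒱 : VarClass k} {ops : CycleOps 𝒱}
    {W : WeilCohomology.{u, v} ops} {p : ℕ} [Fact p.Prime] (Φ : FrobSystem W p)
    (ι : AlgebraicClosure ℚ →+* PadicAlgCl p) (D : ℕ) (U : 𝒱.Obj) : Prop :=
  ∃ Q : ℚ[X], Q ≠ 0 ∧
    (∀ β : AlgebraicClosure ℚ, aeval β Q = 0 → ∃ k : ℤ, ‖ι β‖ ^ D = ((p : ℝ) ^ Φ.e U) ^ k) ∧
    ∀ ν : W.K, Module.End.HasEigenvalue (W.map (Φ.Fr U)).toLinearMap ν → aeval ν Q = 0

/-- The slopes of `U` avoid the heights `h i` with exponents up to `n i`: the eigenvalues of the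
Frobenius endomorphism of `U` (relative to the field with `q = p ^ Φ.e U` elements) on the cohomology
are roots of a nonzero rational polynomial, and if the `p`-adic absolute value of a root of this
polynomial is `q ^ (t + ∑ i, s i / h i)` with integers `t` and `|s i| ≤ n i`, then all `s i` are zero.
(No slope of `U` is congruent modulo one to a nontrivial sum `∑ i, s i / h i`.) -/
def SlopesAvoid {k : Type u} [Field k] {𝒱 : VarClass k} {ops : CycleOps 𝒱}
    {W : WeilCohomology.{u, v} ops} {p : ℕ} [Fact p.Prime] (Φ : FrobSystem W p)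
    (ι : AlgebraicClosure ℚ →+* PadicAlgCl p) {r : ℕ} (h n : Fin r → ℕ) (U : 𝒱.Obj) : Prop :=
  ∃ Q : ℚ[X], Q ≠ 0 ∧
    (∀ β : AlgebraicClosure ℚ, aeval β Q = 0 → ∀ s : Fin r → ℤ, (∀ i, |s i| ≤ n i) → ∀ t : ℤ,
      Real.log ‖ι β‖ = (t + ∑ i, (s i : ℝ) / h i) * Real.log ((p : ℝ) ^ Φ.e U) → ∀ i, s i = 0) ∧
    ∀ ν : W.K, Module.End.HasEigenvalue (W.map (Φ.Fr U)).toLinearMap ν → aeval ν Q = 0

/-- The heights `h i` are independent for exponents up to `n i` and denominator `D`: a sum of
fractions `s i / h i` with integers `|s i| ≤ n i`, not all zero, is never a fraction with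
denominator `D`. -/
def HeightsIndependent {r : ℕ} (h n : Fin r → ℕ) (D : ℕ) : Prop :=
  ∀ s : Fin r → ℤ, (∀ i, |s i| ≤ n i) →
    (∃ t : ℤ, (D : ℚ) * ∑ i, (s i : ℚ) / h i = t) → ∀ i, s i = 0

end Pool.Agent.D0H44.KH
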