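import Pool.Agent.D0H44.KH.Arith
import Pool.Agent.TH121.KT.Word3

/-!
# Slopes and relations
-/

set_option autoImplicit false
set_option linter.unusedSectionVars false

namespace Pool.Agent.D0H44.KH

open NumberField Polynomial Module Pool.Agent.W517.K3 Pool.Agent.TH121.KT Pool.Agent.Y138.KC

variable {p : ℕ} [Fact p.Prime] {ι : Qb →+* PadicAlgCl p}

/-- the norm of `p` -/
theorem norm_p : ‖(p : PadicAlgCl p)‖ = (p : ℝ)⁻¹ := by
  have h1 := PadicAlgCl.norm_extends (p := p) (p : ℚ_[p])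
  rw [Padic.norm_p] at h1
  rw [← h1]
  congr 1

theorem log_norm_p_zpow (j : ℕ) (m : ℤ) :
    Real.log ‖ι (((p ^ j : ℕ) : Qb) ^ m)‖ = -(m * Real.log ((p ^ j : ℕ) : ℝ)) := by
  rw [map_zpow₀, map_natCast, norm_zpow, Real.log_zpow]
  push_cast
  rw [norm_pow, norm_p, inv_pow, Real.log_inv]
  ring

section one

variable {a : ℕ} {E : Type} [Field E] [NumberField E] [IsCMField E] {α : E}

/-- The sum of the slopes is an integral multiple of the unit. -/
theorem exists_slope (hα : IsK3Frobenius p a α) {h c : ℕ} (hh : 0 < h)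
    (hH : ∀ σ : E →+* PadicAlgCl p, 1 < ‖σ α‖ → ‖σ α‖ ^ h = (p : ℝ) ^ c)
    (N : (E →+* Qb) → ℕ) (g : GQ) :
    ∃ s : ℤ, |s| ≤ ((∑ σ, N σ : ℕ) : ℤ) ∧
      FF ι α N g = s * (c * Real.log p / h) := by
  classical
  have hh' : (h : ℝ) ≠ 0 := Nat.cast_ne_zero.2 hh.ne'
  have key : ∀ σ : E →+* Qb, ∃ v : ℤ, |v| ≤ 1 ∧
      Real.log ‖ι (g (σ α))‖ = v * (c * Real.log p / h) := by
    intro σ
    have hbig : ∀ τ : E →+* Qb, 1 < ‖ι (τ α)‖ → Real.log ‖ι (τ α)‖ = c * Real.log p / h := by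
      intro τ hτ
      have h1 := hH (ι.comp τ) hτ
      have h2 : (h : ℝ) * Real.log ‖ι (τ α)‖ = c * Real.log p := by
        rw [← Real.log_pow, ← Real.log_pow]
        exact congrArg Real.log h1
      rw [eq_div_iff hh', ← h2]
      ring
    rcases lt_trichotomy ‖ι (g (σ α))‖ 1 with h1 | h1 | h1
    · refine ⟨-1, by simp, ?_⟩
      have h2 : ‖ι (cj (act g σ) α)‖ = ‖ι (g (σ α))‖⁻¹ := cj_norm (ι := ι) hα.unitary (act g σ)
      have h3 : 0 < ‖ι (g (σ α))‖ := norm_pos' (ι := ι) hα.unitary (act g σ)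
      have h4 := hbig (cj (act g σ)) (by rw [h2]; exact (one_lt_inv₀ h3).2 h1)
      rw [h2, Real.log_inv] at h4
      push_cast
      linarith
    · exact ⟨0, by simp, by rw [h1]; simp⟩
    · exact ⟨1, by simp, by
        have := hbig (act g σ) h1
        push_cast
        rw [one_mul]
        exact this⟩
  choose v hv1 hv using key
  refine ⟨∑ σ, (N σ : ℤ) * v σ, ?_, ?_⟩
  · refine (Finset.abs_sum_le_sum_abs _ _).trans ?_
    push_cast
    refine Finset.sum_le_sum fun σ _ => ?_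
    rw [abs_mul, Nat.abs_cast]
    calc (N σ : ℤ) * |v σ| ≤ N σ * 1 := mul_le_mul_of_nonneg_left (hv1 σ) (by positivity)
      _ = N σ := mul_one _
  · unfold FF
    push_cast
    rw [Finset.sum_mul]
    refine Finset.sum_congr rfl fun σ _ => ?_
    rw [hv σ]
    ring

end one

section several

variable {r : ℕ} {K : Fin r → Type} [∀ i, Field (K i)] [∀ i, NumberField (K i)]
  [∀ i, IsCMField (K i)] {α : ∀ i, K i} {a d n h c : Fin r → ℕ}

/-- **Relations are trivial**: over the algebraic numbers. -/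
theorem balanced_ht (hα : ∀ i, IsK3Frobenius p (a i) (α i))
    (hd : ∀ i, finrank ℚ (K i) = 2 * d i)
    (hgood : ∀ i, n i ≤ 2 ∨ Good (d i) (localDegree p (α i)) (n i))
    (hh : ∀ i, 0 < h i)
    (hH : ∀ i, ∀ σ : K i →+* PadicAlgCl p, 1 < ‖σ (α i)‖ → ‖σ (α i)‖ ^ h i = (p : ℝ) ^ c i)
    {N : ∀ i, (K i →+* Qb) → ℕ} (hN : ∀ i, ∑ σ, N i σ ≤ n i)
    {w : Fin r → ℕ} {R W j : ℕ} (hj : 0 < j)
    (hw : ∀ i, w i * c i = R * j) {m : ℤ} {β : Qb} (hβ0 : β ≠ 0)
    (hrel : (∏ i, ∏ σ : K i →+* Qb, (σ (α i)) ^ (w i * N i σ)) * β ^ W =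
      ((p ^ j : ℕ) : Qb) ^ ((R : ℤ) * m))
    {Q : ℚ[X]} (hβ : aeval β Q = 0)
    (hQ : ∀ β : Qb, aeval β Q = 0 → ∀ s : Fin r → ℤ, (∀ i, |s i| ≤ n i) → ∀ t : ℤ,
      (W : ℝ) * Real.log ‖ι β‖ = R * (t + ∑ i, (s i : ℝ) / h i) * Real.log ((p ^ j : ℕ) : ℝ) →
        ∀ i, s i = 0) (i : Fin r) (σ : K i →+* Qb) :
    N i σ = N i (cj σ) := by
  have hlam : 0 < Real.log ((p ^ j : ℕ) : ℝ) := by
    apply Real.log_pos
    have : 1 < p ^ j := Nat.one_lt_pow hj.ne' (Fact.out : p.Prime).one_lt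
    exact_mod_cast this
  have hlogp : (j : ℝ) * Real.log p = Real.log ((p ^ j : ℕ) : ℝ) := by
    push_cast
    rw [Real.log_pow]
  have hzero : ∀ g : GQ, ∀ i, FF ι (α i) (N i) g = 0 := by
    intro g
    have hsl := fun i => exists_slope (ι := ι) (hα i) (hh i) (hH i) (N i) g
    choose s hs1 hs using hsl
    have h1 := congrArg (fun z => Real.log ‖ι (g z)‖) hrel
    simp only [map_mul, norm_mul] at h1
    have hne1 : ‖ι (g (∏ i, ∏ σ : K i →+* Qb, (σ (α i)) ^ (w i * N i σ)))‖ ≠ 0 := by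
      rw [norm_ne_zero_iff, ne_eq, map_eq_zero, map_eq_zero]
      refine Finset.prod_ne_zero_iff.2 fun i _ => Finset.prod_ne_zero_iff.2 fun σ _ =>
        pow_ne_zero _ ?_
      rw [ne_eq, map_eq_zero]
      exact alpha_ne (hα i).unitary
    have hne2 : ‖ι (g (β ^ W))‖ ≠ 0 := by
      rw [norm_ne_zero_iff, ne_eq, map_eq_zero, map_eq_zero]
      exact pow_ne_zero _ hβ0
    rw [Real.log_mul hne1 hne2] at h1
    have h2 : Real.log ‖ι (g (∏ i, ∏ σ : K i →+* Qb, (σ (α i)) ^ (w i * N i σ)))‖ =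
        ∑ i, (w i : ℝ) * FF ι (α i) (N i) g := by
      simp only [map_prod, map_pow, norm_prod, norm_pow]
      rw [Real.log_prod]
      · refine Finset.sum_congr rfl fun i _ => ?_
        rw [Real.log_prod]
        · unfold FF
          rw [Finset.mul_sum]
          refine Finset.sum_congr rfl fun σ _ => ?_
          rw [Real.log_pow]
          push_cast
          ring
        · intro σ _
          exact pow_ne_zero _ (norm_pos' (hα i).unitary (act g σ)).ne'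
      · intro i _
        exact Finset.prod_ne_zero_iff.2 fun σ _ =>
          pow_ne_zero _ (norm_pos' (hα i).unitary (act g σ)).ne'
    have h3 : Real.log ‖ι (g (((p ^ j : ℕ) : Qb) ^ ((R : ℤ) * m)))‖ =
        -(((R : ℤ) * m : ℤ) * Real.log ((p ^ j : ℕ) : ℝ)) := by
      rw [map_zpow₀, map_natCast]
      exact log_norm_p_zpow j _
    have h4 : Real.log ‖ι (g (β ^ W))‖ = W * Real.log ‖ι (g β)‖ := by
      rw [map_pow, map_pow, norm_pow, Real.log_pow]
    rw [h2, h3, h4] at h1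
    have hgβ : aeval (g β) Q = 0 := by
      rw [Polynomial.aeval_algHom_apply g β Q, hβ, map_zero]
    have h5 : ∀ i, (w i : ℝ) * FF ι (α i) (N i) g =
        R * Real.log ((p ^ j : ℕ) : ℝ) * (s i / h i) := by
      intro i
      rw [hs i, ← hlogp]
      have h6 : (w i : ℝ) * c i = R * j := by exact_mod_cast hw i
      have h7 : (h i : ℝ) ≠ 0 := Nat.cast_ne_zero.2 (hh i).ne'
      field_simp
      linear_combination (s i * Real.log p : ℝ) * h6
    rw [Finset.sum_congr rfl fun i _ => h5 i, ← Finset.mul_sum] at h1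
    set lam := Real.log ((p ^ j : ℕ) : ℝ) with hlamdef
    have h7 : ∀ i, -s i = 0 := by
      refine hQ _ hgβ (fun i => -s i) (fun i => ?_) (-m) ?_
      · rw [abs_neg]
        exact (hs1 i).trans (by exact_mod_cast hN i)
      · have h8 : ∑ i, (((-s i : ℤ) : ℝ)) / h i = - ∑ i, (s i : ℝ) / h i := by
          rw [← Finset.sum_neg_distrib]
          refine Finset.sum_congr rfl fun i _ => ?_
          push_cast
          ring
        rw [h8]
        push_cast at h1 ⊢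
        linear_combination h1
    intro i
    rw [hs i, neg_eq_zero.1 (h7 i)]
    simp
  exact balanced_emb2 (hα i) (hd i) rfl (hgood i) ι (N i) (hN i) (fun g => hzero g i) σ

/-- **Relations are trivial**: over a field of coefficients. -/
theorem balanced_of_relation_ht {Ω : Type*} [Field Ω] [CharZero Ω] [IsAlgClosed Ω]
    (hα : ∀ i, IsK3Frobenius p (a i) (α i))
    (hd : ∀ i, finrank ℚ (K i) = 2 * d i)
    (hgood : ∀ i, n i ≤ 2 ∨ Good (d i) (localDegree p (α i)) (n i))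
    (hh : ∀ i, 0 < h i)
    (hH : ∀ i, ∀ σ : K i →+* PadicAlgCl p, 1 < ‖σ (α i)‖ → ‖σ (α i)‖ ^ h i = (p : ℝ) ^ c i)
    (N : ∀ i, (K i →+* Ω) → ℕ) (hN : ∀ i, ∑ σ, N i σ ≤ n i)
    {w : Fin r → ℕ} {R W j : ℕ} (hj : 0 < j)
    (hw : ∀ i, w i * c i = R * j) {m : ℤ} {β : Ω} (hβ0 : β ≠ 0)
    (hrel : letterProd α w N * β ^ W = ((p ^ j : ℕ) : Ω) ^ ((R : ℤ) * m))
    {Q : ℚ[X]} (hQ0 : Q ≠ 0) (hβ : aeval β Q = 0)
    (hQ : ∀ β : Qb, aeval β Q = 0 → ∀ s : Fin r → ℤ, (∀ i, |s i| ≤ n i) → ∀ t : ℤ,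
      (W : ℝ) * Real.log ‖ι β‖ = R * (t + ∑ i, (s i : ℝ) / h i) * Real.log ((p ^ j : ℕ) : ℝ) →
        ∀ i, s i = 0) (i : Fin r) (σ : K i →+* Ω) :
    N i σ = N i (cj σ) := by
  classical
  let τ : Qb →+* Ω := (IsAlgClosed.lift : Qb →ₐ[ℚ] Ω).toRingHom
  obtain ⟨β', hβ', hτβ⟩ := exists_root τ hQ0 hβ
  have hbij : ∀ i, Function.Bijective (fun ρ : K i →+* Qb => τ.comp ρ) := by
    intro i
    constructor
    · intro ρ ρ' h
      ext x
      exact τ.injective (RingHom.congr_fun h x)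
    · intro σ
      obtain ⟨ρ, hρ⟩ := exists_lift τ σ
      exact ⟨ρ, hρ⟩
  let N' : ∀ i, (K i →+* Qb) → ℕ := fun i ρ => N i (τ.comp ρ)
  have hprod : letterProd α w N =
      τ (∏ i, ∏ ρ : K i →+* Qb, (ρ (α i)) ^ (w i * N' i ρ)) := by
    rw [map_prod]
    unfold letterProd
    refine Finset.prod_congr rfl fun i _ => ?_
    rw [map_prod]
    refine (Fintype.prod_equiv (Equiv.ofBijective _ (hbij i)) _ _ fun ρ => ?_).symm
    rw [map_pow]
    rfl
  have hd' : ∀ i, ∑ ρ : K i →+* Qb, N' i ρ ≤ n i := by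
    intro i
    refine le_trans (le_of_eq ?_) (hN i)
    exact Fintype.sum_equiv (Equiv.ofBijective _ (hbij i)) _ _ fun ρ => rfl
  have hβ0' : β' ≠ 0 := by
    rintro rfl
    rw [map_zero] at hτβ
    exact hβ0 hτβ.symm
  obtain ⟨ρ, rfl⟩ := (hbij i).2 σ
  refine balanced_ht (N := N') (m := m) hα hd hgood hh hH hd' hj hw hβ0' ?_ hβ' hQ i ρ
  apply τ.injective
  rw [map_mul, ← hprod, map_pow, hτβ, hrel, map_zpow₀, map_natCast]

end several

end Pool.Agent.D0H44.KH
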