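import Pool.Agent.D0H44.KH.Slope
import Pool.Agent.Y138.KC.Final

/-!
# The Tate conjecture for products of powers of K3 surfaces with independent heights
-/

set_option autoImplicit false
set_option linter.unusedSectionVars false

open CategoryTheory AlgebraicGeometry NumberField
open scoped TensorProduct

universe u v

namespace Pool.Agent.D0H44.KH

open Pool.Agent.H914 Pool.Agent.H914.VarClass Pool.Agent.H914.VarClass.Obj
  Pool.Agent.H914.WeilCohomology Pool.Agent.H281R3.HT Pool.Agent.W552 Pool.Agent.W534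
  Pool.Agent.W458.RK Pool.Agent.W458.MF Pool.Agent.TH132.A Pool.Agent.W536.RR Pool.Agent.H447
  Pool.Agent.TH121.KT Pool.Agent.W517.K3 Pool.Agent.Y138.TU Pool.Agent.Y138.KC

section split

variable {k : Type u} [Field k] {𝒱 : VarClass k} {ops : CycleOps 𝒱}
  {W : WeilCohomology.{u, v} ops} {Z U : 𝒱.Obj} {p : ℕ} {Φ : FrobSystem W p}
  {PP : W.K → Prop}

/-- The Tate classes on the products of `Z` with all spaces on which the eigenvalues of the
Frobenius endomorphism relative to the field with `q` elements have the property `PL q` are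
combinations of products with algebraic classes of `Z`. -/
def TateTimesL (Φ : FrobSystem W p) (PL : ℕ → W.K → Prop) (Z : 𝒱.Obj) : Prop :=
  ∀ s : ℕ, 0 < s → ∀ (V : Type v) [AddCommGroup V] [Module W.K V] [Module.Finite W.K V]
    (G : Module.End W.K V), (∀ ν, G.HasEigenvalue ν → PL (card Φ Z s) ν) →
    ∀ (c : ℤ) (a : ℕ) (x : W.H Z ⊗[W.K] V),
      Killed (TensorProduct.map (frob Φ Z s) G) ((card Φ Z s : W.K) ^ c) a x →
        x ∈ Submodule.span W.K {w | ∃ (i : ℕ) (y : W.H Z) (v : V), y ∈ cycSub W Z i ∧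
          Killed G ((card Φ Z s : W.K) ^ (c - i)) a v ∧ w = y ⊗ₜ v}

/-- **The Tate conjecture for `Z × U`**, if the Tate classes on the products of `Z` split. -/
theorem tateK_prod_iff' [IsAlgClosed W.K] (hp : 1 < p) (hT : TateTimesP Φ PP Z) (h1PP : PP 1)
    {PL : ℕ → W.K → Prop} (hTL : TateTimesL Φ PL Z)
    (hU : ∀ t, 0 < t → ∀ ν, Module.End.HasEigenvalue (frob Φ U t) ν → PL (card Φ U t) ν)
    {a c : ℕ} :
    TateK Φ (Z.prod U) a c ↔
      ∀ i ≤ c, (∃ x, Z.IsCyc i x ∧ ¬ HomEq W x 0) → TateK Φ U a (c - i) := by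
  obtain ⟨A, B, C, hA, hB, hC, hAB, hAC, hcomm⟩ := exists_comm Φ Z U
  have hcardB : ∀ t, card Φ (Z.prod U) (A * t) = card Φ Z (B * t) := by
    intro t
    rw [W534.card, W534.card]
    congr 1
    calc Φ.e (Z.prod U) * (A * t) = (A * Φ.e (Z.prod U)) * t := by ring
      _ = _ := by rw [hAB]; ring
  have hcardC : ∀ t, card Φ (Z.prod U) (A * t) = card Φ U (C * t) := by
    intro t
    rw [W534.card, W534.card]
    congr 1
    calc Φ.e (Z.prod U) * (A * t) = (A * Φ.e (Z.prod U)) * t := by ring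
      _ = _ := by rw [hAC]; ring
  set E := kunnethMap (W.map (fst Z U)) (W.map (snd Z U)) with hE
  have hEinj : Function.Injective E := (W.kunneth Z U).1
  constructor
  · rintro h i hi ⟨x₀, hx₀, hne⟩ s hs u hu hk
    rw [HomEq, map_zero] at hne
    have hD := homEqNum_of_tateTimesP hp hT h1PP
    obtain ⟨-, x', hx', htr⟩ := exists_partner hD ⟨x₀, hx₀, rfl⟩ hne
    have hcx : W.cl Z x₀ ∈ cycSub W Z i := Submodule.subset_span ⟨x₀, hx₀, rfl⟩
    -- the product is killed
    have hgr : ext W (W.cl Z x₀) u ∈ W.gr (Z.prod U) (2 * c) := by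
      have h1 := W.mul_mem (W.map_mem (fst Z U) (W.cl_mem hx₀)) (W.map_mem (snd Z U) hu)
      rwa [show 2 * i + 2 * (c - i) = 2 * c by omega] at h1
    have hk1 : Killed (frob Φ U (C * s)) ((card Φ U (C * s) : W.K) ^ (c - i)) a u := by
      rw [mul_comm C s]
      exact (killed_frob_mul hC).2 hk
    obtain ⟨M, hM, hkM⟩ := hk1
    obtain ⟨N, hN, hyN⟩ := killed_one_iff.1 (cyc_killed Φ (s := B * s) hcx)
    have hyMN : (frob Φ Z (B * s) ^ (N * M)) (W.cl Z x₀) =
        ((card Φ Z (B * s) : W.K) ^ i) ^ (N * M) • W.cl Z x₀ := by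
      have h1 : ((frob Φ Z (B * s) ^ N - (((card Φ Z (B * s) : W.K) ^ i) ^ N) •
          (1 : Module.End W.K (W.H Z))) ^ 1) (W.cl Z x₀) = 0 := by
        rw [pow_one, LinearMap.sub_apply, hyN, LinearMap.smul_apply, Module.End.one_apply,
          sub_self]
      have h2 := killed_mul h1 M
      rwa [pow_one, LinearMap.sub_apply, LinearMap.smul_apply, Module.End.one_apply,
        sub_eq_zero] at h2
    have h3 : Killed (TensorProduct.map (frob Φ Z (B * s)) (frob Φ U (C * s)))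
        ((card Φ Z (B * s) : W.K) ^ c) a (W.cl Z x₀ ⊗ₜ[W.K] u) := by
      refine ⟨N * M, Nat.mul_pos hN hM, ?_⟩
      have h4 := killed_tmul (F := frob Φ Z (B * s)) (G := frob Φ U (C * s))
        (α := (card Φ Z (B * s) : W.K) ^ i) (β := (card Φ Z (B * s) : W.K) ^ (c - i)) hyMN a u
      rw [← pow_add, Nat.add_sub_cancel' hi] at h4
      rw [h4]
      have h5 := killed_mul hkM N
      rw [← hcardC s, hcardB s, mul_comm M N] at h5
      rw [h5, TensorProduct.tmul_zero, smul_zero]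
    have h4 : Killed (frob Φ (Z.prod U) (A * s)) ((card Φ (Z.prod U) (A * s) : W.K) ^ c) a
        (ext W (W.cl Z x₀) u) := by
      rw [hcardB s]
      exact killed_comm (f := E) (x := W.cl Z x₀ ⊗ₜ[W.K] u) (hcomm s) h3
    have h5 := h (A * s) (Nat.mul_pos hA hs) _ hgr h4
    -- the coefficient
    have h6 : coef W x' (ext W (W.cl Z x₀) u) = W.tr Z (W.cl Z x₀ * x') • u := by
      rw [coef, ext, mul_assoc, ← ((AS.of hx').map (fst Z U)).comm (W.map (snd Z U) u),
        ← mul_assoc, ← map_mul, W.push_snd]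
    have h7 : ∀ z ∈ spanCycles W (Z.prod U) c, coef W x' z ∈ spanCycles W U (c - i : ℕ) := by
      intro z hz
      induction hz using Submodule.span_induction with
      | mem z hz =>
        obtain ⟨j, hj, z, hz, rfl⟩ := hz
        obtain rfl : j = c := by exact_mod_cast hj
        have hdim := (Z.dim_prod U)
        have hxd : i ≤ Z.dim := by
          by_contra hlt
          apply hne
          have h1 := W.cl_mem hx₀
          rw [W.gr_eq_bot Z _ (by omega)] at h1
          exact (Submodule.mem_bot _).1 h1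
        have h8 : coef W x' (W.cl _ z) ∈ algClasses W U (j - i) :=
          alg_push (snd Z U) (alg_mul ⟨z, hz, rfl⟩ (alg_map (fst Z U) hx'))
            (by rw [dim_prod]; omega)
        obtain ⟨w, hw, hw'⟩ := h8
        exact Submodule.subset_span ⟨_, rfl, w, hw, hw'⟩
      | zero => rw [coef, zero_mul, map_zero]; exact Submodule.zero_mem _
      | add x y _ _ hx hy =>
        rw [coef, add_mul, map_add]; exact Submodule.add_mem _ hx hy
      | smul r x _ hx =>
        rw [coef, smul_mul_assoc, map_smul]; exact Submodule.smul_mem _ _ hx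
    have h8 := h7 _ h5
    rw [h6] at h8
    exact (Submodule.smul_mem_iff _ htr).1 h8
  · intro h s hs w hw hk
    rw [← cycSub_eq]
    obtain ⟨x, hx⟩ := (W.kunneth Z U).2 w
    have hk1 : Killed (frob Φ (Z.prod U) (A * s)) ((card Φ (Z.prod U) (A * s) : W.K) ^ c) a
        (E x) := by
      rw [mul_comm A s, hE, hx]
      exact (killed_frob_mul hA).2 hk
    rw [hcardB s, killed_comm_iff E hEinj (hcomm s), ← zpow_natCast] at hk1
    have hG : ∀ ν, Module.End.HasEigenvalue (frob Φ U (C * s)) ν → PL (card Φ Z (B * s)) ν := by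
      rw [← hcardB, hcardC]
      exact hU (C * s) (Nat.mul_pos hC hs)
    have h1 := hTL (B * s) (Nat.mul_pos hB hs) (W.H U) (frob Φ U (C * s)) hG c a x hk1
    -- projection to the degree `2 c`
    rw [← proj_same (W.isInternal (Z.prod U)) hw, ← hx, ← hE]
    clear hk1 hk hx hw
    induction h1 using Submodule.span_induction with
    | mem t ht =>
      obtain ⟨i, y, v, hy, hv, rfl⟩ := ht
      change proj (W.isInternal (Z.prod U)) (2 * c) (W.map (fst Z U) y * W.map (snd Z U) v) ∈ _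
      by_cases hic : i ≤ c
      · have h2 : proj (W.isInternal (Z.prod U)) (2 * c)
            (W.map (fst Z U) y * W.map (snd Z U) v) =
            ext W y (proj (W.isInternal U) (2 * (c - i)) v) := by
          refine gr_induction (W.isInternal U) (p := fun v =>
            proj (W.isInternal (Z.prod U)) (2 * c) (W.map (fst Z U) y * W.map (snd Z U) v) =
              ext W y (proj (W.isInternal U) (2 * (c - i)) v)) ?_ ?_ v
          · intro l b hb
            have h3 := W.mul_mem (W.map_mem (fst Z U) (cycSub_gr hy)) (W.map_mem (snd Z U) hb)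
            by_cases hl : l = 2 * (c - i)
            · subst hl
              rw [show 2 * i + 2 * (c - i) = 2 * c by omega] at h3
              rw [proj_same _ h3, proj_same _ hb]
              rfl
            · rw [proj_ne _ h3 (by omega), proj_ne _ hb hl, ext, map_zero, mul_zero]
          · intro b b' hb hb'
            simp only [map_add, mul_add, hb, hb', ext]
        rw [h2]
        by_cases hy0 : y = 0
        · rw [hy0, ext, map_zero, zero_mul]
          exact Submodule.zero_mem _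
        have h3 : ∃ x, Z.IsCyc i x ∧ ¬ HomEq W x 0 := by
          by_contra hne
          push Not at hne
          apply hy0
          have h4 : cycSub W Z i ≤ ⊥ := by
            rw [cycSub, Submodule.span_le]
            rintro _ ⟨z, hz, rfl⟩
            have := hne z hz
            rw [HomEq, map_zero] at this
            exact (Submodule.mem_bot _).2 this
          exact (Submodule.mem_bot _).1 (h4 hy)
        have h4 := h i hic h3 (C * s) (Nat.mul_pos hC hs)
          (proj (W.isInternal U) (2 * (c - i)) v) (proj_mem _ _ _) (by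
            have h5 : Killed (frob Φ U (C * s)) ((card Φ U (C * s) : W.K) ^ (c - i)) a v := by
              rw [← hcardC, hcardB, ← zpow_natCast, Nat.cast_sub hic]
              exact hv
            exact killed_comm (f := proj (W.isInternal U) (2 * (c - i)))
              (fun x => (proj_map _ _ _).symm) h5)
        rw [← cycSub_eq] at h4
        have h5 := cycSub_ext hy h4
        rwa [Nat.add_sub_cancel' hic] at h5
      · have h2 : proj (W.isInternal (Z.prod U)) (2 * c)
            (W.map (fst Z U) y * W.map (snd Z U) v) = 0 := by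
          refine gr_induction (W.isInternal U) (p := fun v =>
            proj (W.isInternal (Z.prod U)) (2 * c) (W.map (fst Z U) y * W.map (snd Z U) v) =
              0) ?_ ?_ v
          · intro l b hb
            have h3 := W.mul_mem (W.map_mem (fst Z U) (cycSub_gr hy)) (W.map_mem (snd Z U) hb)
            exact proj_ne _ h3 (by omega)
          · intro b b' hb hb'
            simp only [map_add, mul_add, hb, hb', add_zero]
        rw [h2]
        exact Submodule.zero_mem _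
    | zero => rw [map_zero, map_zero]; exact Submodule.zero_mem _
    | add x y _ _ hx hy => rw [map_add, map_add]; exact Submodule.add_mem _ hx hy
    | smul r x _ hx => rw [map_smul, map_smul]; exact Submodule.smul_mem _ _ hx


end split

open Polynomial

/-- the eigenvalue `ν` has slopes which avoid the heights relative to `q` -/
def SlopeAt {p : ℕ} [Fact p.Prime] (ι : Qb →+* PadicAlgCl p) {r : ℕ} (h n : Fin r → ℕ)
    {Ω : Type*} [Field Ω] [CharZero Ω] (q : ℕ) (ν : Ω) : Prop :=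
  ∃ (Q : ℚ[X]) (ν₀ : Ω) (t : ℕ), 0 < t ∧ Q ≠ 0 ∧ aeval ν₀ Q = 0 ∧ ν = ν₀ ^ t ∧
    ∀ β : Qb, aeval β Q = 0 → ∀ s : Fin r → ℤ, (∀ i, |s i| ≤ n i) → ∀ m : ℤ,
      (t : ℝ) * Real.log ‖ι β‖ = (m + ∑ i, (s i : ℝ) / h i) * Real.log (q : ℝ) → ∀ i, s i = 0

section words

variable {k : Type u} [Field k] {𝒱 : VarClass k} {ops : CycleOps 𝒱}
  {W : WeilCohomology.{u, v} ops} {p : ℕ} {Φ : FrobSystem W p}
  {r : ℕ} {X : Fin r → 𝒱.Obj} {e : Fin r → ℕ} {K : Fin r → Type} [∀ i, Field (K i)]
  {α : ∀ i, K i} {Z : 𝒱.Obj}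

/-- the eigenvalue of a word, with the power of `q` -/
lemma word_eigen' {s M : ℕ} (L : List (Letter Φ X e α Z)) (hL : ∀ l ∈ L, l.At s M) :
    ∃ ω : W.K, frob Φ Z s (wordVal L) = ω • wordVal L ∧
      ω ^ (2 * (∏ j, (e j * Φ.e (X j))) * M) =
        (card Φ Z s : W.K) ^ ((∏ j, (e j * Φ.e (X j))) * M * (L.map fun l => (X l.i).dim).sum) *
        (L.map fun l => (l.σ (α l.i)) ^ expo Φ X e Z s M l.i).prod := by
  induction L with
  | nil =>
    refine ⟨1, ?_, ?_⟩
    · rw [wordVal_nil, frob_one, one_smul]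
    · simp
  | cons a L ih =>
    obtain ⟨ω, h1, h2⟩ := ih fun l hl => hL l (List.mem_cons_of_mem _ hl)
    obtain ⟨ω', h3, h4⟩ := hL a List.mem_cons_self
    let E : ℕ := ∏ j ∈ Finset.univ.erase a.i, (e j * Φ.e (X j))
    have hE : ∏ j, (e j * Φ.e (X j)) = e a.i * Φ.e (X a.i) * E :=
      (Finset.mul_prod_erase Finset.univ (fun j => e j * Φ.e (X j)) (Finset.mem_univ a.i)).symm
    refine ⟨ω' * ω, ?_, ?_⟩
    · rw [wordVal_cons, frob_mul_apply, h1, h3, smul_mul_smul_comm]
    · rw [mul_pow, h2]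
      simp only [List.map_cons, List.prod_cons, List.sum_cons]
      have h5 : 2 * (∏ j, (e j * Φ.e (X j))) * M = 2 * (e a.i * Φ.e (X a.i)) * M * E := by
        rw [hE]; ring
      have h6 : (∏ j, (e j * Φ.e (X j))) * M * ((X a.i).dim + (L.map fun l => (X l.i).dim).sum) =
          (X a.i).dim * (e a.i * Φ.e (X a.i)) * M * E +
            (∏ j, (e j * Φ.e (X j))) * M * (L.map fun l => (X l.i).dim).sum := by
        rw [hE]; ring
      rw [h5, pow_mul, h4, mul_pow, ← pow_mul, ← pow_mul, h6, pow_add]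
      change _ = _ * ((a.σ (α a.i)) ^ (2 * (s * Φ.e Z) * M * E) * _)
      ring

lemma even_dims (hdim : ∀ i, Even (X i).dim) (L : List (Letter Φ X e α Z)) :
    ∃ b, (L.map fun l => (X l.i).dim).sum = 2 * b := by
  induction L with
  | nil => exact ⟨0, rfl⟩
  | cons a L ih =>
    obtain ⟨b, hb⟩ := ih
    obtain ⟨c, hc⟩ := hdim a.i
    exact ⟨c + b, by rw [List.map_cons, List.sum_cons, hb, hc]; ring⟩

end words

section main

variable {k : Type u} [Field k] {𝒱 : VarClass k} {ops : CycleOps 𝒱}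
  {W : WeilCohomology.{u, v} ops} {p : ℕ} [Fact p.Prime] {Φ : FrobSystem W p}
  {ι : Qb →+* PadicAlgCl p}
  {r : ℕ} {X : Fin r → 𝒱.Obj} {a d e h n : Fin r → ℕ} {K : Fin r → Type} [∀ i, Field (K i)]
  [∀ i, NumberField (K i)] [∀ i, IsCMField (K i)]
  {α : ∀ i, K i} {Z U : 𝒱.Obj}

/-- **The Tate conjecture for the products of copies of the `X i` with all varieties with slopes of
denominator `D`.** -/
theorem times_ht [IsAlgClosed W.K] (hα : ∀ i, IsK3Frobenius p (a i) (α i))
    (hd : ∀ i, Module.finrank ℚ (K i) = 2 * d i)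
    (hgood : ∀ i, n i ≤ 2 ∨ Good (d i) (localDegree p (α i)) (n i))
    (hT : ∀ i, HasWeilNumber Φ (X i) (e i) (α i)) (hdim : ∀ i, Even (X i).dim)
    (hH : ∀ i, HasHeight Φ (X i) (e i) (α i) (h i)) (hZ : IsProductOfCopies W X n Z) :
    TateTimesL Φ (SlopeAt ι h n) Z := by
  classical
  intro s hs V _ _ _ G hG c a' x hx
  have hp0 : (p : W.K) ≠ 0 := by exact_mod_cast (Fact.out : p.Prime).ne_zero
  have hpq : (p : ℚ) ≠ 0 := by exact_mod_cast (Fact.out : p.Prime).ne_zero
  have hcard : ∀ t, ((card Φ Z t : ℚ)) ≠ 0 := by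
    intro t
    rw [W534.card]
    push_cast
    exact pow_ne_zero _ hpq
  have hQ : ∀ t, (card Φ Z t : W.K) ≠ 0 := fun t => card_ne Φ t
  refine (tensor_killed (F := frob Φ Z s) (G := G) (card Φ Z s : W.K) (hQ s) c
    (fun i => cycSub W Z i) (fun i y hy => cyc_killed Φ hy) ?_ a' x).1 hx
  intro μ ν N hN hν hrel
  refine le_trans ?_ algSpan_le_cyc
  intro y hy
  obtain ⟨Q, ν₀, t, ht, hQ0, hν₀, rfl, hsl⟩ := hG ν hν
  have hν0 : ν₀ ≠ 0 := by
    rintro rfl
    rw [zero_pow ht.ne', mul_zero, zero_pow hN.ne'] at hrel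
    exact pow_ne_zero _ (zpow_ne_zero _ (hQ s)) hrel.symm
  obtain ⟨t₀, ht₀, h0⟩ := span_good (span_words hT hZ y)
  have h1 := h0 s hs
  set T := t₀ * s with hTdef
  have hTs : T = s * t₀ := mul_comm t₀ s
  have h2 : y ∈ Module.End.maxGenEigenspace (frob Φ Z T) (μ ^ t₀) := by
    rw [hTs, frob_mul_eq]
    exact gen_pow_of_gen hy _
  have heig : ∀ v ∈ GoodWords Φ X e α n Z T, ∃ (ω : W.K) (b M : ℕ) (L : List (Letter Φ X e α Z))
      (C : W.H Z), frob Φ Z T v = ω • v ∧ 0 < M ∧ C ∈ algSpan W Z ∧ v = wordVal L * C ∧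
      (∀ i, ∑ σ : K i →+* W.K, mult L i σ ≤ n i) ∧
      ω ^ (2 * (∏ j, (e j * Φ.e (X j))) * M) =
        (card Φ Z T : W.K) ^ (2 * (∏ j, (e j * Φ.e (X j))) * M * b) *
        letterProd α (expo Φ X e Z T M) (mult L) := by
    rintro v ⟨L, j, M, c, hM, hc, hn, hL, hcyc, rfl⟩
    obtain ⟨ω, h3, h4⟩ := word_eigen' L hL
    obtain ⟨b, hb⟩ := even_dims hdim L
    refine ⟨ω * (card Φ Z T : W.K) ^ j, b + j, M, L,
      W.cl Z c, ?_, hM, cl_mem_algSpan hc, rfl, hn, ?_⟩
    · rw [frob_mul_apply, h3, hcyc, smul_mul_smul_comm]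
    · rw [mul_pow, h4, prod_letters, hb, mul_right_comm, ← pow_mul, ← pow_add]
      congr 2
      ring
  have h3 := mem_span_gen (T := frob Φ Z T) (fun v hv => by
    obtain ⟨ω, _, _, _, _, h, _⟩ := heig v hv
    exact ⟨ω, eig_mem_gen h⟩) h1 h2
  refine (Submodule.span_le (p := algSpan W Z)).2 ?_ h3
  rintro v ⟨hv, hvμ⟩
  by_cases hv0 : v = 0
  · rw [hv0]
    exact Submodule.zero_mem _
  obtain ⟨ω, b, M, Lw, C, h4, hM, hC, hvL, hn, h5⟩ := heig v hv
  have h6 : ω = μ ^ t₀ := eq_of_mem_gen (eig_mem_gen h4) hvμ hv0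
  -- the relation
  let E : ℕ := 2 * (∏ j, (e j * Φ.e (X j))) * M
  have hE : 0 < E := Nat.mul_pos (Nat.mul_pos two_pos (Finset.prod_pos fun j _ =>
    Nat.mul_pos (hT j).pos (Φ.e_pos _))) hM
  let w : Fin r → ℕ := expo Φ X e Z T M
  have hTpos : 0 < T := Nat.mul_pos ht₀ hs
  have hw : ∀ i, 0 < w i := fun i => Nat.mul_pos (Nat.mul_pos (Nat.mul_pos two_pos
    (Nat.mul_pos hTpos (Φ.e_pos _))) hM) (Finset.prod_pos fun j _ =>
    Nat.mul_pos (hT j).pos (Φ.e_pos _))
  have hcT : card Φ Z T = card Φ Z s ^ t₀ := by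
    rw [W534.card, W534.card, ← pow_mul, hTs, mul_assoc]
  have h7 : letterProd α (fun i => N * w i) (mult Lw) * ν₀ ^ (N * E * t₀ * t) =
      ((p ^ (Φ.e Z * T) : ℕ) : W.K) ^ (((N * E : ℕ) : ℤ) * (c - b)) := by
    rw [← letterProd_pow]
    have h8 : (μ * ν₀ ^ t) ^ (N * (t₀ * E)) = ((card Φ Z s : W.K) ^ c) ^ (N * (t₀ * E)) := by
      rw [pow_mul, hrel, ← pow_mul]
    have h9 : μ ^ (N * (t₀ * E)) = ((card Φ Z T : W.K) ^ (E * b)) ^ N *
        letterProd α w (mult Lw) ^ N := by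
      rw [← mul_pow, ← h5, h6, ← pow_mul, ← pow_mul]
      congr 1
      simp only [E]
      ring
    rw [mul_pow, h9] at h8
    have h10 : ((card Φ Z s : W.K) ^ c) ^ (N * (t₀ * E)) =
        (card Φ Z T : W.K) ^ (((N * E : ℕ) : ℤ) * c) := by
      rw [hcT, Nat.cast_pow, ← zpow_natCast, ← zpow_mul, ← zpow_natCast (card Φ Z s : W.K) t₀,
        ← zpow_mul]
      congr 1
      push_cast
      ring
    have h11 : (card Φ Z T : W.K) ≠ 0 := hQ T
    have h12 : ((card Φ Z T : W.K) ^ (E * b)) ^ N =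
        (card Φ Z T : W.K) ^ (((N * E : ℕ) : ℤ) * b) := by
      rw [← pow_mul, ← zpow_natCast]
      congr 1
      push_cast
      ring
    have h13 : (ν₀ ^ t) ^ (N * (t₀ * E)) = ν₀ ^ (N * E * t₀ * t) := by
      rw [← pow_mul]
      congr 1
      ring
    rw [h10, h12, h13] at h8
    change _ = (card Φ Z T : W.K) ^ _
    have hB : (card Φ Z T : W.K) ^ (((N * E : ℕ) : ℤ) * b) ≠ 0 := zpow_ne_zero _ h11
    rw [mul_sub, zpow_sub₀ h11, ← h8, eq_div_iff hB]
    ring
  have hwc : ∀ i, (N * w i) * (Φ.e (X i) * e i) = (N * E) * (Φ.e Z * T) := by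
    intro i
    have h8 : ∏ j, (e j * Φ.e (X j)) = e i * Φ.e (X i) * ∏ j ∈ Finset.univ.erase i, (e j * Φ.e (X j)) :=
      (Finset.mul_prod_erase Finset.univ (fun j => e j * Φ.e (X j)) (Finset.mem_univ i)).symm
    simp only [w, E, expo]
    rw [h8]
    ring
  have hbal := balanced_of_relation_ht (ι := ι) (p := p) hα hd hgood (fun i => (hH i).1)
    (fun i => (hH i).2) (mult Lw) hn (w := fun i => N * w i) (R := N * E)
    (W := N * E * t₀ * t) (j := Φ.e Z * T)
    (Nat.mul_pos (Φ.e_pos Z) hTpos) hwc (m := c - b) hν0 h7 hQ0 hν₀ (fun β hβ s' hs' m' h8 => by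
      refine hsl β hβ s' hs' m' ?_
      have h9 : Real.log ((p ^ (Φ.e Z * T) : ℕ) : ℝ) = t₀ * Real.log (card Φ Z s : ℝ) := by
        rw [← Real.log_pow, ← Nat.cast_pow, ← hcT]
        rfl
      rw [h9] at h8
      have h10 : ((N * E * t₀ : ℕ) : ℝ) ≠ 0 := by
        exact_mod_cast (Nat.mul_pos (Nat.mul_pos hN hE) ht₀).ne'
      refine mul_left_cancel₀ h10 ?_
      push_cast at h8 ⊢
      linear_combination h8)
  rw [hvL]
  refine algSpan_mul (balanced_alg hT (fun i => (hα i).unitary) Lw.length Lw le_rfl ?_) hC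
  rintro ⟨i, σ⟩
  have h12 := hbal i σ
  unfold mult at h12
  exact h12


lemma slopeAt_one {q : ℕ} (hq : 1 < q) (hI : HeightsIndependent h n 1) :
    SlopeAt ι h n q (1 : W.K) := by
  refine ⟨Polynomial.X - Polynomial.C 1, 1, 1, one_pos, X_sub_C_ne_zero (1 : ℚ), ?_, by simp, ?_⟩
  · simp
  · intro β hβ s hs m hm
    have h1 : β = 1 := by
      have : β - 1 = 0 := by simpa using hβ
      exact sub_eq_zero.1 this
    have h2 : Real.log (q : ℝ) ≠ 0 := (Real.log_pos (by exact_mod_cast hq)).ne'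
    rw [h1, map_one, norm_one, Real.log_one, mul_zero] at hm
    have h3 := (mul_eq_zero.1 hm.symm).resolve_right h2
    refine hI s hs ⟨-m, ?_⟩
    have h4 : (((1 : ℕ) : ℚ) * ∑ i, (s i : ℚ) / h i : ℚ) = ((-m : ℤ) : ℚ) := by
      have h5 : ((((1 : ℕ) : ℚ) * ∑ i, (s i : ℚ) / h i : ℚ) : ℝ) = (((-m : ℤ) : ℚ) : ℝ) := by
        push_cast
        linarith
      exact_mod_cast h5
    exact h4

lemma slopeAt_frob [IsAlgClosed W.K] (hU : SlopesAvoid Φ ι h n U) (t : ℕ) (ht : 0 < t)
    (ν : W.K) (hν : Module.End.HasEigenvalue (frob Φ U t) ν) :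
    SlopeAt ι h n (card Φ U t) ν := by
  obtain ⟨Q, hQ, hsl, hroot⟩ := hU
  rw [frob_pow_eq', Module.End.hasEigenvalue_iff_mem_spectrum, spectrum.map_pow_of_pos _ ht] at hν
  obtain ⟨β, hβ, rfl⟩ := hν
  refine ⟨Q, β, t, ht, hQ, hroot β (Module.End.hasEigenvalue_iff_mem_spectrum.2 hβ), rfl, ?_⟩
  intro β' hβ' s hs m hm
  refine hsl β' hβ' s hs m ?_
  have h1 : Real.log ((card Φ U t : ℕ) : ℝ) = t * Real.log ((p : ℝ) ^ Φ.e U) := by
    rw [W534.card, Nat.cast_pow, pow_mul, Real.log_pow]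
  rw [h1] at hm
  have h2 : (t : ℝ) ≠ 0 := Nat.cast_ne_zero.2 ht.ne'
  refine mul_left_cancel₀ h2 ?_
  linear_combination hm

/-- slopes with denominators dividing `D` -/
lemma avoid_of_denominators {D : ℕ} (hI : HeightsIndependent h n D)
    (hU : SlopeDenominators Φ ι D U) : SlopesAvoid Φ ι h n U := by
  obtain ⟨Q, hQ, hsl, hroot⟩ := hU
  refine ⟨Q, hQ, ?_, hroot⟩
  intro β hβ s hs t ht
  obtain ⟨k, hk⟩ := hsl β hβ
  have h1 := congrArg Real.log hk
  rw [Real.log_pow, Real.log_zpow, ht] at h1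
  have h2 : Real.log ((p : ℝ) ^ Φ.e U) ≠ 0 := by
    have hp : 1 < (p : ℝ) := by exact_mod_cast (Fact.out : p.Prime).one_lt
    exact (Real.log_pos (one_lt_pow₀ hp (Φ.e_pos U).ne')).ne'
  have h3 : (D : ℝ) * (t + ∑ i, (s i : ℝ) / h i) = k := by
    apply mul_right_cancel₀ h2
    linear_combination h1
  refine hI s hs ⟨k - D * t, ?_⟩
  have h4 : (((D : ℚ) * ∑ i, (s i : ℚ) / h i : ℚ) : ℝ) = (((k - D * t : ℤ) : ℚ) : ℝ) := by
    push_cast
    linarith
  exact_mod_cast h4

/-- **Main theorem.** -/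
theorem main [IsAlgClosed W.K] (hα : ∀ i, IsK3Frobenius p (a i) (α i))
    (hd : ∀ i, Module.finrank ℚ (K i) = 2 * d i)
    (hgood : ∀ i, n i ≤ 2 ∨ Good (d i) (localDegree p (α i)) (n i))
    (hT : ∀ i, HasWeilNumber Φ (X i) (e i) (α i)) (hdim : ∀ i, Even (X i).dim)
    (hH : ∀ i, HasHeight Φ (X i) (e i) (α i) (h i))
    (hI : HeightsIndependent h n 1) (hZ : IsProductOfCopies W X n Z)
    (ι : Qb →+* PadicAlgCl p) :
    (∀ c, SemisimpleTateIn Φ Z c) ∧
    ∀ U : 𝒱.Obj, SlopesAvoid Φ ι h n U → ∀ c,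
      (TateIn Φ (Z.prod U) c ↔
        ∀ i ≤ c, (∃ x, Z.IsCyc i x ∧ ¬ HomEq W x 0) → TateIn Φ U (c - i)) ∧
      (SemisimpleTateIn Φ (Z.prod U) c ↔
        ∀ i ≤ c, (∃ x, Z.IsCyc i x ∧ ¬ HomEq W x 0) → SemisimpleTateIn Φ U (c - i)) := by
  have hp := (Fact.out : p.Prime).one_lt
  have hTL : TateTimesL Φ (SlopeAt ι h n) Z := times_ht hα hd hgood hT hdim hH hZ
  have hTT : TateTimesP Φ (fun ν => ν = 1) Z := by
    intro s hs V _ _ _ G hG c a x hx
    refine hTL s hs V G (fun ν hν => ?_) c a x hx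
    rw [hG ν hν]
    exact slopeAt_one (Nat.one_lt_pow (Nat.mul_pos (Φ.e_pos Z) hs).ne' hp) hI
  refine ⟨fun c s hs x hx => ?_, ?_⟩
  · obtain ⟨⟨b, hb⟩, -⟩ := (mem_genTate Φ).1 hx
    rw [← cycSub_eq]
    exact gen_algP hp hTT rfl hs hb
  · intro U hU c
    have key : ∀ b, TateK Φ (Z.prod U) b c ↔
        ∀ i ≤ c, (∃ x, Z.IsCyc i x ∧ ¬ HomEq W x 0) → TateK Φ U b (c - i) := fun b =>
      tateK_prod_iff' hp hTT rfl hTL (slopeAt_frob hU)
    refine ⟨?_, ?_⟩
    · rw [Pool.Agent.Y138.TU.tateIn_iff, key 1]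
      simp only [Pool.Agent.Y138.TU.tateIn_iff]
    · simp only [semisimple_iff, key]
      constructor
      · intro h i hi hx a
        exact h a i hi hx
      · intro h a i hi hx
        exact h i hi hx a

end main

end Pool.Agent.D0H44.KH
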